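import Pool.Agent.P.MP_0e7365_lc.Max

namespace Pool.Agent.Results.MP_0e7365_lc.MaxSpectrum

open Pool.Agent.P.MP_0e7365_lc

/-- There is a transitive model of ZFC in which some set `S` of members of the high spectrum of
Tukey types of ultrafilters on `ω` is equinumerous with the power set `C` of `ω`. -/
theorem result : ∃ M : Set ZFSet.{0}, TransModelZFC M ∧ ∃ C ∈ M, ∃ S ∈ M,
    (∀ x, x ∈ C ↔ x ∈ M ∧ x ⊆ ZFSet.omega) ∧ (∀ κ ∈ S, InSpec M κ) ∧ EquinumIn M C S :=
  main_max

end Pool.Agent.Results.MP_0e7365_lc.MaxSpectrum
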