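import Pool.Agent.P.MP_0e7365_lc.Main

namespace Pool.Agent.Results.MP_0e7365_lc.SpectrumSize

open Pool.Agent.P.MP_0e7365_lc

/-- For every positive integer `n` there is a transitive model of ZFC whose high spectrum of Tukey
types of ultrafilters on `ω` has exactly `n` elements. -/
theorem result (n : ℕ) (hn : 0 < n) :
    ∃ M : Set ZFSet.{0}, TransModelZFC M ∧ {κ : ZFSet.{0} | InSpec M κ}.encard = n :=
  main n hn

end Pool.Agent.Results.MP_0e7365_lc.SpectrumSize
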